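import Pool.Agent.Lib.MP_f9129e_co.Asymptotic

/-!
# Edge colourings of complete graphs with few colours whose small unions have small chromatic number

One sequence of edge colourings `c n` of `K_n` with `n^{o(1)}` colours such that, for every `s`, for
all large `n` the union of every `s` colour classes of `c n` has chromatic number at most `s + 1`;
here `s + 1` cannot be replaced by `s`.
-/

set_option autoImplicit false

open Finset Filter Topology

namespace Pool.Agent.Results.MP_f9129e_co.OneSequence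

/-- An edge colouring of the complete graph on `n` vertices; the colours are natural numbers. -/
abbrev EdgeColouring (n : ℕ) : Type := (⊤ : SimpleGraph (Fin n)).edgeSet → ℕ

/-- The number of colours used by `c`. -/
noncomputable def numColours {n : ℕ} (c : EdgeColouring n) : ℕ := (Set.range c).ncard

/-- The union of the colour classes of the colours in `S`, a spanning subgraph of `K_n`. -/
def classUnion {n : ℕ} (c : EdgeColouring n) (S : Finset ℕ) : SimpleGraph (Fin n) :=
  SimpleGraph.fromEdgeSet {e | ∃ h : e ∈ (⊤ : SimpleGraph (Fin n)).edgeSet, c ⟨e, h⟩ ∈ S}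

/-- The edge colourings `c n` of `K_n` use `n^{o(1)}` colours. -/
def FewColours (c : ∀ n, EdgeColouring n) : Prop :=
  Tendsto (fun n : ℕ => Real.log (numColours (c n)) / Real.log n) atTop (𝓝 0)

theorem classUnion_adj {n : ℕ} (c : EdgeColouring n) (S : Finset ℕ) (x y : Fin n) :
    (classUnion c S).Adj x y ↔ ∃ h : x ≠ y, c ⟨s(x, y), by simpa using h⟩ ∈ S := by
  rw [classUnion, SimpleGraph.fromEdgeSet_adj]
  constructor
  · rintro ⟨⟨h, h2⟩, h3⟩
    exact ⟨h3, h2⟩
  · rintro ⟨h, h2⟩
    exact ⟨⟨by simpa using h, h2⟩, h⟩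

open Pool.Agent.Lib.MP_f9129e_co in
/-- The product of colourings. -/
theorem prod_colouring (n r : ℕ) (k : ℕ → ℕ) (h : ∀ t, Has t (Fin n) (Fin (k t))) :
    ∃ c : EdgeColouring n, numColours c ≤ ∏ i : Fin (r + 1), k i ∧
      ∀ S : Finset ℕ, S.card ≤ r → (classUnion c S).chromaticNumber ≤ (S.card + 1 : ℕ) := by
  classical
  choose C hs hC using h
  let K : Type := ∀ i : Fin (r + 1), Fin (k i)
  let enc : K ≃ Fin (Fintype.card K) := Fintype.equivFin K
  let C' : ∀ t, Sym2 (Fin n) → Fin (k t) := fun t => Sym2.lift ⟨C t, hs t⟩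
  let c : EdgeColouring n := fun e => (enc (fun i => C' i e.1) : ℕ)
  refine ⟨c, ?_, fun S hS => ?_⟩
  · have h1 : Set.range c ⊆ ((Finset.range (Fintype.card K) : Finset ℕ) : Set ℕ) := by
      rintro _ ⟨e, rfl⟩
      simp [c]
    have h2 := Set.ncard_le_ncard h1 (Finset.finite_toSet _)
    rw [Set.ncard_coe_finset, Finset.card_range] at h2
    have h3 : Fintype.card K = ∏ i : Fin (r + 1), k i := by
      rw [Fintype.card_pi]
      simp
    rw [← h3]
    exact h2
  · let F : Finset K := univ.filter (fun v => (enc v : ℕ) ∈ S)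
    let T : Finset (Fin (k S.card)) := F.image (fun v => v ⟨S.card, by omega⟩)
    have hF : F.card ≤ S.card := by
      refine Finset.card_le_card_of_injOn (fun v => (enc v : ℕ)) ?_ ?_
      · intro v hv
        exact (Finset.mem_filter.1 hv).2
      · intro v _ w _ hvw
        exact enc.injective (Fin.ext hvw)
    obtain ⟨f, hf⟩ := hC S.card T (Finset.card_image_le.trans hF)
    refine SimpleGraph.Colorable.chromaticNumber_le ⟨SimpleGraph.Coloring.mk f ?_⟩
    intro x y hxy
    rw [classUnion_adj] at hxy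
    obtain ⟨hne, hmem⟩ := hxy
    refine hf x y hne (Finset.mem_image.2 ⟨fun i => C' i s(x, y), ?_, rfl⟩)
    exact Finset.mem_filter.2 ⟨Finset.mem_univ _, hmem⟩

/-- The logarithmic form of `n^{o(1)}`. -/
theorem fewColours_of {c : ∀ n, EdgeColouring n}
    (h : ∀ ε : ℝ, 0 < ε → ∀ᶠ n : ℕ in atTop, (numColours (c n) : ℝ) ≤ (n : ℝ) ^ ε) :
    FewColours c := by
  unfold FewColours
  rw [Metric.tendsto_atTop]
  intro ε hε
  obtain ⟨N, hN⟩ := eventually_atTop.1 (h (ε / 2) (by positivity))
  refine ⟨max N 2, fun n hn => ?_⟩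
  have h1 := hN n (le_of_max_le_left hn)
  have hn2 : 2 ≤ n := le_of_max_le_right hn
  have hlog : 0 < Real.log n := Real.log_pos (by exact_mod_cast hn2)
  rw [Real.dist_eq, sub_zero]
  rcases Nat.eq_zero_or_pos (numColours (c n)) with h0 | h0
  · rw [h0]
    simpa using hε
  · have h0' : (1 : ℝ) ≤ numColours (c n) := by exact_mod_cast h0
    have h2 : Real.log (numColours (c n)) ≤ ε / 2 * Real.log n := by
      rw [← Real.log_rpow (by positivity)]
      exact Real.log_le_log (by linarith) h1
    have h3 : 0 ≤ Real.log (numColours (c n)) := Real.log_nonneg h0'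
    rw [abs_of_nonneg (by positivity), div_lt_iff₀ hlog]
    nlinarith

theorem few_le {c : ∀ n, EdgeColouring n} (h : FewColours c) {ε : ℝ} (hε : 0 < ε) :
    ∀ᶠ n : ℕ in atTop, (numColours (c n) : ℝ) ≤ (n : ℝ) ^ ε := by
  have h1 := h.eventually_lt_const hε
  filter_upwards [h1, eventually_ge_atTop 2] with n hn hn2
  have hlog : 0 < Real.log n := Real.log_pos (by exact_mod_cast hn2)
  rw [div_lt_iff₀ hlog] at hn
  rcases Nat.eq_zero_or_pos (numColours (c n)) with h0 | h0
  · rw [h0]
    simpa using Real.rpow_nonneg (Nat.cast_nonneg n) ε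
  · have h0' : (0 : ℝ) < numColours (c n) := by exact_mod_cast h0
    rw [← Real.log_le_log_iff h0' (by positivity), Real.log_rpow (by positivity)]
    exact hn.le

/-- `s + 1` vertices spanning at most `s` colours. -/
theorem clique_few {n : ℕ} (c : EdgeColouring n) (h1 : 1 ≤ numColours c) (s : ℕ) :
    ∀ A : Finset (Fin n), (numColours c + 1) ^ s ≤ A.card →
      ∃ T ⊆ A, T.card = s + 1 ∧ ∃ S : Finset ℕ, S.card ≤ s ∧
        ∀ x ∈ T, ∀ y ∈ T, ∀ h : x ≠ y, c ⟨s(x, y), by simpa using h⟩ ∈ S := by
  classical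
  induction s with
  | zero =>
    intro A hA
    obtain ⟨v, hv⟩ : A.Nonempty := by
      rw [← Finset.card_pos]
      rw [pow_zero] at hA
      omega
    refine ⟨{v}, by simpa using hv, by simp, ∅, by simp, ?_⟩
    intro x hx y hy h
    rw [Finset.mem_singleton] at hx hy
    exact absurd (hx.trans hy.symm) h
  | succ s ih =>
    intro A hA
    set k := numColours c with hk
    have hpos : 1 ≤ (k + 1) ^ s := Nat.one_le_pow _ _ (by omega)
    obtain ⟨v, hv⟩ : A.Nonempty := by
      rw [← Finset.card_pos]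
      have : 1 ≤ (k + 1) ^ (s + 1) := Nat.one_le_pow _ _ (by omega)
      omega
    have hfin : (Set.range c).Finite := Set.toFinite _
    let col : Fin n → ℕ := fun x => if h : v ≠ x then c ⟨s(v, x), by simpa using h⟩ else 0
    let B : Finset (Fin n) := A.erase v
    have hBc : B.card + 1 = A.card := Finset.card_erase_add_one hv
    have hcol : ∀ x ∈ B, col x ∈ hfin.toFinset := by
      intro x hx
      have hne : v ≠ x := fun h => (Finset.mem_erase.1 hx).1 h.symm
      simp [col, hne]
    have hkc : hfin.toFinset.card = k := by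
      rw [hk, numColours, Set.ncard_eq_toFinset_card _ hfin]
    have hcount : hfin.toFinset.card * ((k + 1) ^ s - 1) < B.card := by
      rw [hkc]
      have e1 : (k + 1) ^ (s + 1) = k * (k + 1) ^ s + (k + 1) ^ s := by ring
      have e2 : k * ((k + 1) ^ s - 1) = k * (k + 1) ^ s - k := by
        rw [Nat.mul_sub, mul_one]
      have e3 : k ≤ k * (k + 1) ^ s := Nat.le_mul_of_pos_right _ (by omega)
      omega
    obtain ⟨γ, -, hγ⟩ := Finset.exists_lt_card_fiber_of_mul_lt_card_of_maps_to hcol hcount
    obtain ⟨T, hTA, hTc, S, hSc, hS⟩ := ih (B.filter (fun x => col x = γ)) (by omega)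
    have hTB : ∀ x ∈ T, x ∈ B ∧ col x = γ := fun x hx => Finset.mem_filter.1 (hTA hx)
    have hvT : v ∉ T := fun h => (Finset.mem_erase.1 (hTB v h).1).1 rfl
    refine ⟨insert v T, ?_, by rw [Finset.card_insert_of_notMem hvT, hTc], insert γ S,
      (Finset.card_insert_le _ _).trans (by omega), ?_⟩
    · intro x hx
      rcases Finset.mem_insert.1 hx with rfl | hx
      · exact hv
      · exact Finset.mem_of_mem_erase (hTB x hx).1
    · intro x hx y hy h
      rcases Finset.mem_insert.1 hx with hx1 | hx1 <;> rcases Finset.mem_insert.1 hy with hy1 | hy1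
      · exact absurd (hx1.trans hy1.symm) h
      · have h2 := (hTB y hy1).2
        have h3 : v ≠ y := hx1 ▸ h
        simp only [col, ne_eq, h3, not_false_eq_true, dite_true] at h2
        subst hx1
        rw [h2]
        exact Finset.mem_insert_self _ _
      · have h2 := (hTB x hx1).2
        have h3 : v ≠ x := fun h' => h (h'.symm.trans hy1.symm)
        simp only [col, ne_eq, h3, not_false_eq_true, dite_true] at h2
        subst hy1
        have e : (⟨s(x, y), by simpa using h⟩ : (⊤ : SimpleGraph (Fin n)).edgeSet) =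
            ⟨s(y, x), by simpa using h.symm⟩ := Subtype.ext Sym2.eq_swap
        rw [e, h2]
        exact Finset.mem_insert_self _ _
      · exact Finset.mem_insert_of_mem (hS x hx1 y hy1 h)

/-- The bound `s + 1` is best possible. -/
theorem optimal {c : ∀ n, EdgeColouring n} (h : FewColours c) (s : ℕ) :
    ∀ᶠ n : ℕ in atTop, ∃ S : Finset ℕ, S.card ≤ s ∧
      ((s + 1 : ℕ) : ℕ∞) ≤ (classUnion (c n) S).chromaticNumber := by
  classical
  have hε : (0 : ℝ) < 1 / (2 * ((s : ℝ) + 1)) := by positivity
  have hlim : Tendsto (fun n : ℕ => (n : ℝ) ^ (1 / (2 * ((s : ℝ) + 1)))) atTop atTop :=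
    (tendsto_rpow_atTop hε).comp tendsto_natCast_atTop_atTop
  filter_upwards [few_le h hε, hlim.eventually_ge_atTop 2, eventually_ge_atTop 2]
    with n h1 h2 hn
  have hn0 : (0 : ℝ) < n := by
    have : 0 < n := by omega
    exact_mod_cast this
  have hn1 : (1 : ℝ) ≤ n := by
    have : 1 ≤ n := by omega
    exact_mod_cast this
  have hk : 1 ≤ numColours (c n) := by
    have he : (s((⟨0, by omega⟩ : Fin n), (⟨1, by omega⟩ : Fin n))) ∈
        (⊤ : SimpleGraph (Fin n)).edgeSet := by simp
    have h3 : (Set.range (c n)).Nonempty := ⟨_, ⟨⟨_, he⟩, rfl⟩⟩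
    exact (Set.ncard_pos (Set.toFinite _)).2 h3
  have hk2 : ((numColours (c n) : ℝ) + 1) ^ s ≤ n := by
    set a := (n : ℝ) ^ (1 / (2 * ((s : ℝ) + 1))) with ha
    have h3 : (numColours (c n) : ℝ) + 1 ≤ a ^ 2 := by nlinarith
    calc ((numColours (c n) : ℝ) + 1) ^ s ≤ (a ^ 2) ^ s :=
          pow_le_pow_left₀ (by positivity) h3 s
      _ = (n : ℝ) ^ (1 / (2 * ((s : ℝ) + 1)) * ((2 * s : ℕ) : ℝ)) := by
          rw [← pow_mul, ha, ← Real.rpow_natCast, ← Real.rpow_mul hn0.le]
      _ ≤ (n : ℝ) ^ (1 : ℝ) := by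
          refine Real.rpow_le_rpow_of_exponent_le hn1 ?_
          push_cast
          rw [div_mul_eq_mul_div, one_mul, div_le_one (by positivity)]
          linarith
      _ = n := Real.rpow_one _
  obtain ⟨T, -, hT, S, hS, hTS⟩ := clique_few (c n) hk s univ (by
    rw [Finset.card_univ, Fintype.card_fin]
    exact_mod_cast hk2)
  refine ⟨S, hS, ?_⟩
  rw [← hT]
  apply SimpleGraph.IsClique.card_le_chromaticNumber
  intro x hx y hy hxy
  rw [classUnion_adj]
  exact ⟨hxy, hTS x hx y hy hxy⟩

/-- **Few colours, small unions.** There is one sequence of edge colourings `c n` of `K_n` with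
`n^{o(1)}` colours such that for every `s`, for all large `n`, the union of every set `S` of at most
`s` colour classes has chromatic number at most `|S| + 1`; and this is best possible: for all edge
colourings `c n` with `n^{o(1)}` colours, every `s` and all large `n` the union of some at most `s`
colour classes has chromatic number at least `s + 1`. -/
theorem result :
    (∃ c : ∀ n, EdgeColouring n, FewColours c ∧
      ∀ s : ℕ, ∀ᶠ n : ℕ in atTop, ∀ S : Finset ℕ, S.card ≤ s →
        (classUnion (c n) S).chromaticNumber ≤ (S.card + 1 : ℕ)) ∧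
    (∀ c : ∀ n, EdgeColouring n, FewColours c →
      ∀ s : ℕ, ∀ᶠ n : ℕ in atTop, ∃ S : Finset ℕ, S.card ≤ s ∧
        ((s + 1 : ℕ) : ℕ∞) ≤ (classUnion (c n) S).chromaticNumber) := by
  classical
  choose k hk hcol using fun r => Pool.Agent.Lib.MP_f9129e_co.exists_colouring r
  -- products of colour numbers
  have hprod : ∀ r : ℕ, ∀ ε : ℝ, 0 < ε → ∀ᶠ n : ℕ in atTop,
      ((∏ i : Fin (r + 1), k i n : ℕ) : ℝ) ≤ (n : ℝ) ^ ε := by
    intro r ε hε
    have h1 : ∀ᶠ n : ℕ in atTop, ∀ i : Fin (r + 1),
        (k i n : ℝ) ≤ (n : ℝ) ^ (ε / ((r : ℝ) + 1)) := by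
      rw [Filter.eventually_all]
      exact fun i => hk i _ (by positivity)
    filter_upwards [h1] with n hn
    have hn0 : (0 : ℝ) ≤ n := Nat.cast_nonneg n
    push_cast
    calc ∏ i : Fin (r + 1), (k i n : ℝ) ≤ ∏ _i : Fin (r + 1), (n : ℝ) ^ (ε / ((r : ℝ) + 1)) :=
          Finset.prod_le_prod (fun i _ => Nat.cast_nonneg _) (fun i _ => hn i)
      _ = (n : ℝ) ^ ε := by
          rw [Finset.prod_const, Finset.card_univ, Fintype.card_fin, ← Real.rpow_natCast,
            ← Real.rpow_mul hn0]
          congr 1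
          push_cast
          field_simp
  choose C hC1 hC2 using fun (r n : ℕ) => prod_colouring n r (fun t => k t n) (fun t => hcol t n)
  refine ⟨?_, fun c hc s => optimal hc s⟩
  · -- the diagonal sequence
    let Q : ℕ → ℕ → Prop := fun n r => ∀ n' : ℕ, n ≤ n' →
      ((∏ i : Fin (r + 1), k i n' : ℕ) : ℝ) ≤ (n' : ℝ) ^ (1 / ((r : ℝ) + 1))
    let R : ℕ → ℕ := fun n => Nat.findGreatest (Q n) n
    have hR : ∀ r0 : ℕ, 1 ≤ r0 → ∀ᶠ n : ℕ in atTop, r0 ≤ R n ∧ Q n (R n) := by
      intro r0 hr0
      obtain ⟨N, hN⟩ := eventually_atTop.1 (hprod r0 (1 / ((r0 : ℝ) + 1)) (by positivity))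
      filter_upwards [eventually_ge_atTop N, eventually_ge_atTop r0] with n h1 h2
      have hQ : Q n r0 := fun n' hn' => hN n' (h1.trans hn')
      exact ⟨Nat.le_findGreatest h2 hQ, Nat.findGreatest_spec h2 hQ⟩
    refine ⟨fun n => C (R n) n, fewColours_of fun ε hε => ?_, fun s => ?_⟩
    · obtain ⟨r0, hr0⟩ := exists_nat_gt (1 / ε)
      filter_upwards [hR (r0 + 1) (by omega), eventually_ge_atTop 1] with n hn hn1
      have hn1' : (1 : ℝ) ≤ n := by exact_mod_cast hn1
      refine le_trans (le_trans (by exact_mod_cast hC1 (R n) n) (hn.2 n le_rfl)) ?_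
      refine Real.rpow_le_rpow_of_exponent_le hn1' ?_
      have h3 : (r0 : ℝ) + 1 ≤ R n := by exact_mod_cast hn.1
      rw [div_le_iff₀ (by positivity)]
      rw [div_lt_iff₀ hε] at hr0
      nlinarith
    · filter_upwards [hR (s + 1) (by omega)] with n hn S hS
      exact hC2 (R n) n S (by omega)

end Pool.Agent.Results.MP_f9129e_co.OneSequence
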